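import Pool.Agent.Run7.h563.LS.ZS

set_option autoImplicit false

/-!
# Correlations of zeta with itself in the moments are at least those of the cosine

Unconditional, for all real orders `β ≥ 1` and integers `1 ≤ a ≤ β`, in Gaussian windows of centre `T` and width `D`,
`B / √(log T) ≤ D ≤ T / log T`. Let `s = 1/2 + it`, `L = log T`, and let `M` be the moment of order `β` of `|ζ(s)|`. Then

`Re exp (i a x / 2) ∫ ζ(s + ix / L) ^ a (conj ζ(s)) ^ a |ζ(s)| ^ (β - 2 a) ≥ (cos (a x / 2) - ε) M` for `|x| ≤ 2 π / a`.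

For `β = 2 k`, `a = k` the integral is the shifted moment with `k` factors `ζ(s + ix / L)` and `k` factors `conj ζ(s)`,
as in the recipe for the moments: `k = 4` is the eighth moment. The inequality is sharp for the method: if `ζ` is replaced
by a multiple of a translate of the cosine, of the same exponential type, and `a = 1`, there is equality for every `β`.
The proof uses no information on the size of the moments.
-/

namespace Pool.Agent.Results.MP_56b8f5_nt.CorrelationsAtLeastCosine

open MeasureTheory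

noncomputable section

/-- the absolute value of zeta to the power `β`, with the Gaussian weight of centre `T` and width `D` -/
def density (β T D t : ℝ) : ℝ :=
  ‖riemannZeta (1 / 2 + t * Complex.I)‖ ^ β * Real.exp (-((t - T) / D) ^ 2)

/-- the moment of order `β` -/
def moment (β T D : ℝ) : ℝ := ∫ t : ℝ, density β T D t

/-- the mean of `ζ(s + ix / log T) ^ a (conj ζ(s)) ^ a |ζ(s)| ^ (β - 2 a)`, `s = 1/2 + it`, with the same weight -/
def correlation (β T D : ℝ) (a : ℕ) (x : ℝ) : ℂ :=
  ∫ t : ℝ, riemannZeta (1 / 2 + (t + x / Real.log T) * Complex.I) ^ a *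
    (starRingEnd ℂ) (riemannZeta (1 / 2 + t * Complex.I)) ^ a *
    ((‖riemannZeta (1 / 2 + t * Complex.I)‖ ^ (β - 2 * a) * Real.exp (-((t - T) / D) ^ 2) : ℝ) : ℂ)

theorem sp_eq (t : ℝ) : (1 / 2 + t * Complex.I : ℂ) = Run7.h563.LS.sp t := by
  unfold Run7.h563.LS.sp; push_cast; ring

theorem moment_eq (β T D : ℝ) : moment β T D = Run7.h563.LS.JB β T D (1 / 2) := by
  unfold moment density
  rw [Run7.h563.LS.JB_eq_sp]
  simp only [sp_eq]
  rfl

theorem window {B T D : ℝ} (hB : 1 ≤ B) (hT : 200 ≤ T) (hD : B / √(Real.log T) ≤ D) :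
    0 < D ∧ B ≤ D ^ 2 * Real.log T := by
  have hlog := Run7.h563.LS.log_ge_one (T := T) (by linarith)
  have hL0 : 0 < Real.log T := by linarith
  have hsL : 0 < √(Real.log T) := Real.sqrt_pos.mpr hL0
  have hB' : B ≤ D * √(Real.log T) := (div_le_iff₀ hsL).mp hD
  have hD0 : 0 < D := lt_of_lt_of_le (by positivity) hD
  refine ⟨hD0, ?_⟩
  have e : D ^ 2 * Real.log T = (D * √(Real.log T)) ^ 2 := by rw [mul_pow, Real.sq_sqrt hL0.le]
  rw [e]
  nlinarith

/-- **Correlations of zeta with itself in the moments are at least those of the cosine.** -/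
theorem result (β : ℝ) (a : ℕ) (ha : 1 ≤ a) (hab : (a : ℝ) ≤ β) (ε : ℝ) (hε : 0 < ε) :
    ∃ B T₀ : ℝ, ∀ T D : ℝ, T₀ ≤ T → B / √(Real.log T) ≤ D → D ≤ T / Real.log T →
      0 < moment β T D ∧ ∀ x : ℝ, |x| ≤ 2 * Real.pi / a →
        (Real.cos (a * x / 2) - ε) * moment β T D ≤
          (Complex.exp (a * x / 2 * Complex.I) * correlation β T D a x).re := by
  obtain ⟨B, T₀, hB, hT₀, h⟩ := Run7.h563.LS.corr ha hab hε
  refine ⟨B, T₀, fun T D hT hD hDT => ?_⟩
  obtain ⟨w1, w2⟩ := window hB (hT₀.trans hT) hD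
  obtain ⟨hJ, h2⟩ := h T D hT w1 w2 hDT
  rw [moment_eq]
  refine ⟨hJ, fun x hx => (h2 x hx).trans (le_of_eq ?_)⟩
  congr 2
  unfold correlation
  congr 1
  funext t
  have e1 : (1 / 2 + (t + x / Real.log T) * Complex.I : ℂ) =
      Run7.h563.LS.sp t + x * Complex.I / Real.log T := by
    rw [← sp_eq]; ring
  rw [e1, sp_eq]
  have e2 : Q97.MM.wt T D t = Real.exp (-((t - T) / D) ^ 2) := rfl
  rw [e2]
  push_cast
  ring

end

end Pool.Agent.Results.MP_56b8f5_nt.CorrelationsAtLeastCosine
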