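import Pool.Agent.Run7.h74.UC.All
import Pool.Agent.Run7.h74.AE.Fin2

/-!
# The logarithm of zeta cannot be concentrated: by no Dirichlet polynomial, and inside no moment

`logZ t` is the logarithm of `ζ(1/2+it)` by continuous variation along the horizontal ray from the right; its imaginary part
is `π S(t)`, its real part `log |ζ(1/2+it)|`. The size of `log ζ` is about `(loglog T)^(1/2)`.

For `A ≥ 1` and `η, ε > 0` there are positive numbers `δ, C` such that for all large `T`, for EVERY Dirichlet polynomial `B` of length `T ^ δ` with arbitrary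
complex coefficients, and for every `R ≥ (loglog T)^η`:

* discs: the part of `∫_T^{2T} |B(t)|² dt` over the `t` at which `log ζ(1/2+i(t+α))` lies in a given disc of radius `R` of the complex plane
  is at most `C R² / loglog T` times the whole, for all shifts `|α| ≤ T/2` and all centres `V`;
* strips: the part of `∫_T^{2T} |B(t)|² dt` over the `t` at which `Re ∑_j k_j log ζ(1/2+i(t+α_j))` lies in a given interval of length `2R` is at most
  `C R / (1 + ∑_{p ≤ T} |∑_j k_j p^(-iα_j)|²/p)^(1/2)` times the whole, for all complex `k_j` and all shifts;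
* the same inside the moments: there is a measurable set `G`, where `log ζ` is within `O(1)` of the logarithm of the Euler product over `p ≤ T ^ δ`, whose complement is
  negligible relative to every `B`, such that all the moments `∫ |∏_j ζ(1/2+i(t+α_j))^(k_j)|² dt` over the `t` in `[T, 2T]` with all `t + α_j` in `G`, of all complex orders
  `k_j`, are of the predicted order, and the discs and the strips carry at most the proportions above of each of these moments,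
  also after multiplication by `|B(t)|²` (for `k = 4`, `α = 0` this is the eighth moment).

For `B = 1` the two proportions are the true order of magnitude (central limit theorem of Selberg). A weight `|B|²` can move the distribution of `log ζ`, for
instance the weight of the eighth moment moves the real part to `4 loglog T`, but by the theorem no weight can concentrate it.
-/

set_option autoImplicit false

open Filter Topology MeasureTheory Complex

namespace Pool.Agent.Results.MP_56b8f5_nt.NoConcentration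

/-- the Dirichlet polynomial `∑ b_n n ^ (-1/2-it)`, `n ≤ N` -/
noncomputable def D (N : ℕ) (b : ℕ → ℂ) (t : ℝ) : ℂ :=
  ∑ n ∈ Finset.Icc 1 N, b n * (n : ℂ) ^ (-(1 / 2 + t * I))

/-- zeta on the critical line -/
noncomputable def z (t : ℝ) : ℂ := riemannZeta (1 / 2 + t * I)

/-- the argument of zeta at `1/2 + it` by continuous variation along the horizontal ray from the right (this is `π S(t)`) -/
noncomputable def argZ (t : ℝ) : ℝ :=
  -∫ σ in Set.Ioi (1 / 2 : ℝ), (deriv riemannZeta (σ + t * I) / riemannZeta (σ + t * I)).im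

/-- the logarithm of zeta at `1/2 + it` -/
noncomputable def logZ (t : ℝ) : ℂ := (Real.log ‖z t‖ : ℂ) + (argZ t : ℂ) * I

/-- the logarithm of the Euler product over the primes `p ≤ X` at `1/2 + it` -/
noncomputable def eulerLog (X : ℕ) (t : ℝ) : ℂ :=
  -∑ p ∈ (Finset.Icc 1 X).filter Nat.Prime, Complex.log (1 - (p : ℂ) ^ (-(1 / 2 + t * I)))

/-- the linear combination `∑_j k_j log ζ(1/2 + i(t+α_j))` -/
noncomputable def comb {n : ℕ} (k : Fin n → ℂ) (α : Fin n → ℝ) (t : ℝ) : ℂ := ∑ j, k j * logZ (t + α j)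

/-- `∑_{p ≤ T} |∑_j k_j p^(-iα_j)|²/p`, twice the variance of the real part of `comb k α` -/
noncomputable def variance {n : ℕ} (k : Fin n → ℂ) (α : Fin n → ℝ) (T : ℝ) : ℝ :=
  ∑ p ∈ (Finset.Icc 1 ⌊T⌋₊).filter Nat.Prime, ‖∑ j, k j * (p : ℂ) ^ (-(α j * I))‖ ^ 2 / p

/-- the proportion for discs of radius `R` -/
noncomputable def disc (R T : ℝ) : ℝ := R ^ 2 / Real.log (Real.log T)

/-- the proportion for strips of width `2R` -/
noncomputable def strip {n : ℕ} (k : Fin n → ℂ) (α : Fin n → ℝ) (R T : ℝ) : ℝ := R / Real.sqrt (1 + variance k α T)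

/-- the `t` in `[T, 2T]` with all `t + α_j` in `G` -/
def good (G : Set ℝ) (T : ℝ) {n : ℕ} (α : Fin n → ℝ) : Set ℝ :=
  {t : ℝ | t ∈ Set.Icc T (2 * T) ∧ ∀ j, t + α j ∈ G}

open Pool.Agent.Q97.UM Run7.h311.CM Pool.Agent.Run7.h74.AE
open Pool.Agent.Run7.h74.UC (LZ SK ucD ucS md_main inside LZ_meas SK_meas MD full_CHT full_BLM full_FEJ1 full_FEJ2)

/-- truncated coefficients -/
noncomputable def cut (N : ℕ) (b : ℕ → ℂ) (n : ℕ) : ℂ := if 1 ≤ n ∧ n ≤ N then b n else 0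

lemma cut_supp (N : ℕ) (b : ℕ → ℂ) : ∀ n, cut N b n ≠ 0 → 1 ≤ n ∧ n ≤ N := by
  intro n hn
  unfold cut at hn
  by_contra h
  exact hn (if_neg h)

lemma D_cut (N : ℕ) (b : ℕ → ℂ) (t : ℝ) : D N b t = dp N (cut N b) t := by
  unfold D dp
  refine Finset.sum_congr rfl fun n hn => ?_
  rw [Finset.mem_Icc] at hn
  unfold cut
  rw [if_pos hn]

lemma eulerLog_eq (X : ℕ) (t : ℝ) : eulerLog X t = LE X t := rfl

lemma logZ_eq (t : ℝ) : logZ t = LZ t := rfl

lemma comb_eq {n : ℕ} (k : Fin n → ℂ) (α : Fin n → ℝ) (t : ℝ) : comb k α t = SK k α t := rfl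

lemma variance_eq {n : ℕ} (k : Fin n → ℂ) (α : Fin n → ℝ) (T : ℝ) : variance k α T = PS k α T := rfl

lemma set_Icc_Ioc {T : ℝ} {P : ℝ → Prop} {F : ℝ → ℝ} :
    ∫ t in {t : ℝ | t ∈ Set.Icc T (2 * T) ∧ P t}, F t = ∫ t in Set.Ioc T (2 * T) ∩ {t : ℝ | P t}, F t := by
  refine setIntegral_congr_set ?_
  have h : (Set.Icc T (2 * T) : Set ℝ) =ᵐ[volume] Set.Ioc T (2 * T) := Ioc_ae_eq_Icc.symm
  exact h.inter (ae_eq_refl {t : ℝ | P t})

/-- the size of the product of complex powers -/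
lemma power_wz {n : ℕ} (k : Fin n → ℂ) (α : Fin n → ℝ) {t : ℝ} (h : ∀ j, z (t + α j) ≠ 0) :
    ‖cexp (comb k α t)‖ ^ 2 = wz k α t := by
  unfold comb wz
  rw [Complex.norm_exp, ← Real.exp_nat_mul, Complex.re_sum, Finset.mul_sum, Real.exp_sum]
  refine Finset.prod_congr rfl fun j _ => ?_
  have h0 : 0 < ‖zt (t + α j)‖ := norm_pos_iff.2 (h j)
  rw [Real.rpow_def_of_pos h0, ← Real.exp_add]
  congr 1
  have e : (k j * logZ (t + α j)).re = (k j).re * Real.log ‖zt (t + α j)‖ - (k j).im * az (t + α j) := by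
    have h1 : (logZ (t + α j)).re = Real.log ‖zt (t + α j)‖ := by
      unfold logZ
      simp
      rfl
    have h2 : (logZ (t + α j)).im = az (t + α j) := by
      unfold logZ
      simp
      rfl
    rw [Complex.mul_re, h1, h2]
  rw [e]
  push_cast
  ring

/-- **the logarithm of zeta cannot be concentrated, by no Dirichlet polynomial and inside no moment** -/
theorem result (A η ε : ℝ) (hA : 1 ≤ A) (hη : 0 < η) (hε : 0 < ε) :
    ∃ δ W c C : ℝ, 0 < δ ∧ 0 < W ∧ 0 < c ∧ 0 < C ∧ ∀ᶠ T : ℝ in atTop, ∀ R : ℝ, Real.log (Real.log T) ^ η ≤ R →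
      (∀ (α : ℝ) (V : ℂ) (N : ℕ) (b : ℕ → ℂ), |α| ≤ T / 2 → (N : ℝ) ≤ T ^ δ →
        ∫ t in {t : ℝ | t ∈ Set.Icc T (2 * T) ∧ ‖logZ (t + α) - V‖ ≤ R}, ‖D N b t‖ ^ 2 ≤
          C * disc R T * ∫ t in T..(2 * T), ‖D N b t‖ ^ 2) ∧
      (∀ (n : ℕ) (k : Fin n → ℂ) (α : Fin n → ℝ), (n : ℝ) ≤ A → ∑ j, ‖k j‖ ≤ A → (∀ j, |α j| ≤ T / 2) →
        ∀ (V : ℝ) (N : ℕ) (b : ℕ → ℂ), (N : ℝ) ≤ T ^ δ →
        ∫ t in {t : ℝ | t ∈ Set.Icc T (2 * T) ∧ |(comb k α t).re - V| ≤ R}, ‖D N b t‖ ^ 2 ≤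
          C * strip k α R T * ∫ t in T..(2 * T), ‖D N b t‖ ^ 2) ∧
      ∃ G : Set ℝ, MeasurableSet G ∧
      (∀ t ∈ G, z t ≠ 0 ∧ z t = cexp (logZ t) ∧ ‖logZ t - eulerLog ⌊T ^ δ⌋₊ t‖ ≤ W) ∧
      (∀ (α : ℝ) (N : ℕ) (b : ℕ → ℂ), |α| ≤ T / 2 → (N : ℝ) ≤ T ^ δ →
        ∫ t in {t : ℝ | t ∈ Set.Icc T (2 * T) ∧ t + α ∉ G}, ‖D N b t‖ ^ 2 ≤
          ε * ∫ t in T..(2 * T), ‖D N b t‖ ^ 2) ∧
      ∀ (n : ℕ) (k : Fin n → ℂ) (α : Fin n → ℝ), (n : ℝ) ≤ A → ∑ j, ‖k j‖ ≤ A → (∀ j, |α j| ≤ T / 2) →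
        (c * (T * Real.exp (variance k α T)) ≤ ∫ t in good G T α, ‖cexp (comb k α t)‖ ^ 2 ∧
          ∫ t in good G T α, ‖cexp (comb k α t)‖ ^ 2 ≤ C * (T * Real.exp (variance k α T))) ∧
        ∀ (N : ℕ) (b : ℕ → ℂ), (N : ℝ) ≤ T ^ δ →
        (∀ (β : ℝ) (V : ℂ), |β| ≤ T / 2 →
          ∫ t in {t : ℝ | t ∈ good G T α ∧ ‖logZ (t + β) - V‖ ≤ R}, ‖cexp (comb k α t)‖ ^ 2 * ‖D N b t‖ ^ 2 ≤
            C * disc R T * ∫ t in good G T α, ‖cexp (comb k α t)‖ ^ 2 * ‖D N b t‖ ^ 2) ∧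
        ∀ (m : ℕ) (l : Fin m → ℂ) (β : Fin m → ℝ), (m : ℝ) ≤ A → ∑ j, ‖l j‖ ≤ A → (∀ j, |β j| ≤ T / 2) → ∀ V : ℝ,
          ∫ t in {t : ℝ | t ∈ good G T α ∧ |(comb l β t).re - V| ≤ R}, ‖cexp (comb k α t)‖ ^ 2 * ‖D N b t‖ ^ 2 ≤
            C * strip l β R T * ∫ t in good G T α, ‖cexp (comb k α t)‖ ^ 2 * ‖D N b t‖ ^ 2 := by
  classical
  have hA0 : 0 < A := by linarith
  have hz : S_AZM := Pool.Agent.Run7.h510.AE.t_AZM
  obtain ⟨δ₁, hδ₁, h1⟩ := ucD full_CHT full_FEJ2 full_BLM full_THA hz η hη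
  obtain ⟨δ₂, hδ₂, h2⟩ := ucS full_CHT full_FEJ1 full_BLM full_THA hz A η hA hη
  obtain ⟨θ, hθ, hθ1, hθ2⟩ : ∃ θ : ℝ, 0 < θ ∧ θ ≤ δ₁ ∧ θ ≤ δ₂ := ⟨min δ₁ δ₂, by positivity, min_le_left _ _, min_le_right _ _⟩
  obtain ⟨C₁, hC₁, h1⟩ := h1 θ hθ hθ1
  obtain ⟨C₂, hC₂, h2⟩ := h2 θ hθ hθ2
  obtain ⟨δ, κ, W, c, C, hδ, hδθ, hκ, hκδ, hW, hc, hC, h⟩ := md_main full_THA hz A (ε / 2) θ hA (by positivity) hθ
  have hC₁0 : 0 < C₁ := by linarith
  have hC₂0 : 0 < C₂ := by linarith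
  obtain ⟨C₃, hC₃, q1, q2, q3, q4, q5⟩ : ∃ C₃ : ℝ, 0 < C₃ ∧ 2 * C₁ ≤ C₃ ∧ 2 * C₂ ≤ C₃ ∧ C ≤ C₃ ∧ C / c * C₁ ≤ C₃ ∧ C / c * C₂ ≤ C₃ := by
    have p1 : 0 < C / c * C₁ := by positivity
    have p2 : 0 < C / c * C₂ := by positivity
    exact ⟨2 * C₁ + 2 * C₂ + C + C / c * C₁ + C / c * C₂, by linarith, by linarith, by linarith, by linarith, by linarith, by linarith⟩
  refine ⟨δ, 2 * W, c, C₃, hδ, by positivity, hc, hC₃, ?_⟩
  have hLL : Tendsto (fun T : ℝ => Real.log (Real.log T)) atTop atTop := Real.tendsto_log_atTop.comp Real.tendsto_log_atTop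
  filter_upwards [h1, h2, h, eventually_ge_atTop 16, hLL.eventually_ge_atTop 1] with T h1 h2 hd hT hΛ R hR
  have hT0 : 0 < T := by linarith
  have hT1 : 1 ≤ T := by linarith
  have hR0 : 0 ≤ R := le_trans (by positivity) hR
  have hTθ : T ^ δ ≤ T ^ θ := Real.rpow_le_rpow_of_exponent_le hT1 hδθ
  have hTδ : T ^ δ ≤ T ^ (1 / 4 : ℝ) := Real.rpow_le_rpow_of_exponent_le hT1 (by nlinarith)
  have hdisc0 : 0 ≤ disc R T := by
    unfold disc
    positivity
  have hstrip0 : ∀ {n : ℕ} (k : Fin n → ℂ) (α : Fin n → ℝ), 0 ≤ strip k α R T := by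
    intro n k α
    unfold strip
    positivity
  -- mean values
  have hMV : ∀ (N : ℕ) (b : ℕ → ℂ), (N : ℝ) ≤ T ^ δ → T * N2 N (cut N b) ≤ 2 * ∫ t in T..(2 * T), ‖D N b t‖ ^ 2 := by
    intro N b hN
    obtain ⟨v1, -⟩ := Pool.Agent.Q84.UM.t_MVL T hT N (hN.trans hTδ) (cut N b)
    simp only [D_cut]
    linarith
  have hN20 : ∀ (N : ℕ) (b : ℕ → ℂ), 0 ≤ T * N2 N (cut N b) := fun N b =>
    mul_nonneg hT0.le (Pool.Agent.Q84.UM.N2_nonneg _ _)
  set G := GGD δ κ A W T with hG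
  -- change of the set
  have hset : ∀ {n : ℕ} (α : Fin n → ℝ), (good G T α : Set ℝ) =ᵐ[volume] SC δ κ A W T α := by
    intro n α
    have h1 : (Set.Icc T (2 * T) : Set ℝ) =ᵐ[volume] Set.Ioc T (2 * T) := Ioc_ae_eq_Icc.symm
    have h2 : ({t : ℝ | ∀ j, t + α j ∈ G} : Set ℝ) =ᵐ[volume] {t : ℝ | ∀ j, t + α j ∈ GGC δ κ A W T} := by
      have h3 : ∀ j, ({t : ℝ | t + α j ∈ G} : Set ℝ) =ᵐ[volume] {t : ℝ | t + α j ∈ GGC δ κ A W T} :=
        fun j => shift_ae (GGD_ae δ κ A W T) (α j)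
      have h4 := Filter.EventuallyEq.countable_iInter h3
      have e1 : ∀ S : Set ℝ, {t : ℝ | ∀ j, t + α j ∈ S} = ⋂ j, {t : ℝ | t + α j ∈ S} := by
        intro S
        ext t
        simp
      rw [e1, e1]
      exact h4
    exact h1.inter h2
  have hgoodX : ∀ {n : ℕ} (k : Fin n → ℂ) (α : Fin n → ℝ) (F : ℝ → ℝ) (X : Set ℝ), MeasurableSet X →
      ∫ t in good G T α ∩ X, ‖cexp (comb k α t)‖ ^ 2 * F t = ∫ t in SC δ κ A W T α ∩ X, wz k α t * F t := by
    intro n k α F X hX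
    rw [setIntegral_congr_set ((hset α).inter (ae_eq_refl X))]
    refine setIntegral_congr_fun ((SC_meas hz δ κ A W T α).inter hX) fun t ht => ?_
    have h1 : ‖cexp (comb k α t)‖ ^ 2 = wz k α t := power_wz k α fun j => (ht.1.2 j).1.1
    show ‖cexp (comb k α t)‖ ^ 2 * F t = wz k α t * F t
    rw [h1]
  have hgood : ∀ {n : ℕ} (k : Fin n → ℂ) (α : Fin n → ℝ) (F : ℝ → ℝ), ∫ t in good G T α, ‖cexp (comb k α t)‖ ^ 2 * F t =
      ∫ t in SC δ κ A W T α, wz k α t * F t := by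
    intro n k α F
    have h1 := hgoodX k α F Set.univ MeasurableSet.univ
    rwa [Set.inter_univ, Set.inter_univ] at h1
  have mD : ∀ (β : ℝ) (V : ℂ), MeasurableSet {t : ℝ | ‖LZ (t + β) - V‖ ≤ R} := fun β V =>
    measurableSet_le ((((LZ_meas hz).comp (measurable_add_const β)).sub measurable_const).norm) measurable_const
  have mS : ∀ {m : ℕ} (l : Fin m → ℂ) (β : Fin m → ℝ) (V : ℝ), MeasurableSet {t : ℝ | |(SK l β t).re - V| ≤ R} := fun l β V =>
    measurableSet_le ((Complex.measurable_re.comp (SK_meas hz l β)).sub measurable_const).abs measurable_const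
  refine ⟨?_, ?_, G, GGD_meas hz δ κ A W T, fun t ht => ⟨ht.1.1.1, zt_exp ht.2 ht.1.1.1, ?_⟩, ?_, ?_⟩
  · intro α V N b hα hN
    rw [set_Icc_Ioc]
    simp only [logZ_eq, D_cut]
    refine (h1 α hα V R hR N (cut N b) (hN.trans hTθ) (cut_supp N b)).trans ?_
    have h5 := hMV N b hN
    simp only [D_cut] at h5
    calc C₁ * (R ^ 2 / Real.log (Real.log T)) * (T * N2 N (cut N b)) = C₁ * disc R T * (T * N2 N (cut N b)) := rfl
      _ ≤ C₁ * disc R T * (2 * ∫ t in T..(2 * T), ‖dp N (cut N b) t‖ ^ 2) := by gcongr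
      _ = 2 * C₁ * disc R T * ∫ t in T..(2 * T), ‖dp N (cut N b) t‖ ^ 2 := by ring
      _ ≤ _ := by
          refine mul_le_mul_of_nonneg_right (mul_le_mul_of_nonneg_right q1 hdisc0) ?_
          exact intervalIntegral.integral_nonneg (by linarith) fun t _ => by positivity
  · intro n k α hn hk hα V N b hN
    rw [set_Icc_Ioc]
    simp only [comb_eq, D_cut]
    refine (h2 n k α hn hk hα V R hR N (cut N b) (hN.trans hTθ) (cut_supp N b)).trans ?_
    have h5 := hMV N b hN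
    simp only [D_cut] at h5
    calc C₂ * (R / Real.sqrt (1 + PS k α T)) * (T * N2 N (cut N b)) = C₂ * strip k α R T * (T * N2 N (cut N b)) := rfl
      _ ≤ C₂ * strip k α R T * (2 * ∫ t in T..(2 * T), ‖dp N (cut N b) t‖ ^ 2) := by
          refine mul_le_mul_of_nonneg_left h5 (mul_nonneg hC₂0.le (hstrip0 k α))
      _ = 2 * C₂ * strip k α R T * ∫ t in T..(2 * T), ‖dp N (cut N b) t‖ ^ 2 := by ring
      _ ≤ _ := by
          refine mul_le_mul_of_nonneg_right (mul_le_mul_of_nonneg_right q2 (hstrip0 k α)) ?_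
          exact intervalIntegral.integral_nonneg (by linarith) fun t _ => by positivity
  · have h1 : |Real.log ‖zt t‖ - EP ⌊T ^ δ⌋₊ t| ≤ W := ht.1.1.2.1
    have h2 : |az t - EA ⌊T ^ δ⌋₊ t| ≤ W := ht.1.2
    have h3 : (logZ t - eulerLog ⌊T ^ δ⌋₊ t).re = Real.log ‖zt t‖ - EP ⌊T ^ δ⌋₊ t := by
      rw [Complex.sub_re, eulerLog_eq, LE_re]
      unfold logZ
      simp
      rfl
    have h4 : (logZ t - eulerLog ⌊T ^ δ⌋₊ t).im = az t - EA ⌊T ^ δ⌋₊ t := by
      rw [Complex.sub_im, eulerLog_eq, LE_im]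
      unfold logZ
      simp
      rfl
    refine (Complex.norm_le_abs_re_add_abs_im _).trans ?_
    rw [h3, h4]
    linarith
  · intro α N b hα hN
    have e1 : ∫ t in {t : ℝ | t ∈ Set.Icc T (2 * T) ∧ t + α ∉ G}, ‖D N b t‖ ^ 2 =
        ∫ t in Set.Ioc T (2 * T) ∩ {t : ℝ | t + α ∉ GGC δ κ A W T}, ‖D N b t‖ ^ 2 := by
      refine setIntegral_congr_set ?_
      have h1 : (Set.Icc T (2 * T) : Set ℝ) =ᵐ[volume] Set.Ioc T (2 * T) := Ioc_ae_eq_Icc.symm
      exact h1.inter (shift_ae (GGD_ae δ κ A W T) α).compl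
    rw [e1]
    have h5 := hMV N b hN
    have h6 : ∫ t in Set.Ioc T (2 * T) ∩ {t : ℝ | t + α ∉ GGC δ κ A W T}, ‖D N b t‖ ^ 2 ≤ ε / 2 * (T * N2 N (cut N b)) := by
      simp only [D_cut]
      exact hd.neg α hα N hN (cut N b) (cut_supp N b)
    calc ∫ t in Set.Ioc T (2 * T) ∩ {t : ℝ | t + α ∉ GGC δ κ A W T}, ‖D N b t‖ ^ 2 ≤ ε / 2 * (T * N2 N (cut N b)) := h6
      _ ≤ ε / 2 * (2 * ∫ t in T..(2 * T), ‖D N b t‖ ^ 2) := by gcongr
      _ = _ := by ring
  · intro n k α hn hk hα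
    constructor
    · obtain ⟨o1, o2⟩ := hd.ord n k α hn hk hα
      have hg := hgood k α (fun _ => 1)
      simp only [mul_one] at hg
      rw [hg, variance_eq]
      refine ⟨o1, o2.trans ?_⟩
      exact mul_le_mul_of_nonneg_right q3 (by positivity)
    · intro N b hN
      have hI0 : 0 ≤ ∫ t in SC δ κ A W T α, wz k α t * ‖D N b t‖ ^ 2 :=
        setIntegral_nonneg (SC_meas hz δ κ A W T α) fun t _ => mul_nonneg (wz_nn k α t) (by positivity)
      constructor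
      · intro β V hβ
        have e1 : {t : ℝ | t ∈ good G T α ∧ ‖logZ (t + β) - V‖ ≤ R} = good G T α ∩ {t : ℝ | ‖LZ (t + β) - V‖ ≤ R} := rfl
        rw [e1, hgoodX k α _ _ (mD β V), hgood k α]
        simp only [D_cut] at hI0 ⊢
        refine (inside (q := C₁ * disc R T) hz hd hc hC (by positivity) (mD β V)
          (fun N b hN hb => h1 β hβ V R hR N b hN hb) hn hk hα hN (cut_supp N b)).trans ?_
        refine mul_le_mul_of_nonneg_right ?_ hI0
        rw [← mul_assoc]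
        exact mul_le_mul_of_nonneg_right q4 hdisc0
      · intro m l β hm hl hβ V
        have e1 : {t : ℝ | t ∈ good G T α ∧ |(comb l β t).re - V| ≤ R} = good G T α ∩ {t : ℝ | |(SK l β t).re - V| ≤ R} := rfl
        rw [e1, hgoodX k α _ _ (mS l β V), hgood k α]
        simp only [D_cut] at hI0 ⊢
        refine (inside (q := C₂ * strip l β R T) hz hd hc hC (mul_nonneg hC₂0.le (hstrip0 l β)) (mS l β V)
          (fun N b hN hb => h2 m l β hm hl hβ V R hR N b hN hb) hn hk hα hN (cut_supp N b)).trans ?_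
        refine mul_le_mul_of_nonneg_right ?_ hI0
        rw [← mul_assoc]
        exact mul_le_mul_of_nonneg_right q5 (hstrip0 l β)

end Pool.Agent.Results.MP_56b8f5_nt.NoConcentration
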